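import Pool.Agent.L7h26.TN.Stm

/-! # Project TN, part EQN -/

set_option autoImplicit false

namespace Pool.Agent.L7h47.TN

open Pool.Agent.L7h26.TN

lemma Q_dvd (N : ℕ) : Q N ∣ N :=
  (Finset.prod_dvd_prod_of_subset _ _ _ (Finset.filter_subset _ _)).trans
    (Nat.prod_primeFactors_dvd N)

lemma Q_mul_r (N : ℕ) : Q N * r N = N := Nat.mul_div_cancel' (Q_dvd N)

/-- Part EQN. -/
theorem s_EQN : S_EQN := by
  intro n d d' hn hd hd' hsum hdvd
  obtain ⟨T, hT⟩ := hdvd
  obtain ⟨m, rfl⟩ : ∃ m, n = m + 1 := ⟨n - 1, by omega⟩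
  rw [Nat.add_sub_cancel] at hT ⊢
  have h1 := Q_mul_r (m + 1 + 1)
  have h0 := Q_mul_r (m + 1)
  have hm := Q_mul_r m
  set q1 := Q (m + 1 + 1)
  set r1 := r (m + 1 + 1)
  set q0 := Q (m + 1)
  set r0 := r (m + 1)
  set qm := Q m
  set rm := r m
  set s := r1 ^ 2 * r0 * rm with hs
  set P := d * d' with hP
  have hPP : d * (d + 3) * (d' * (d' + 3)) = P * (P + 3 * (m + 2)) := by
    have : d + d' + 1 = m := by omega
    rw [hP, ← this]
    ring
  have hTpos : 0 < T := by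
    rcases Nat.eq_zero_or_pos T with h | h
    · rw [h, Nat.mul_zero] at hT
      have : 0 < d * (d + 3) * (d' * (d' + 3)) := by positivity
      omega
    · exact h
  have E1 : T * ((m + 1) * m * (m + 2) ^ 2) = s * (P * (P + 3 * (m + 2))) := by
    rw [← hPP, hT, hs]
    have h1' : q1 * r1 = m + 2 := h1
    calc T * ((m + 1) * m * (m + 2) ^ 2) = T * ((q0 * r0) * (qm * rm) * (q1 * r1) ^ 2) := by
          rw [h0, hm, h1']
      _ = _ := by ring
  have E2 : (s * (2 * P + 3 * (m + 2))) ^ 2 =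
      (m + 2) ^ 2 * (4 * s * T * ((m + 1) * m) + 9 * s ^ 2) := by
    calc (s * (2 * P + 3 * (m + 2))) ^ 2
        = 4 * s * (s * (P * (P + 3 * (m + 2)))) + 9 * s ^ 2 * (m + 2) ^ 2 := by ring
      _ = 4 * s * (T * ((m + 1) * m * (m + 2) ^ 2)) + 9 * s ^ 2 * (m + 2) ^ 2 := by rw [E1]
      _ = _ := by ring
  obtain ⟨y, hy⟩ : m + 2 ∣ s * (2 * P + 3 * (m + 2)) := by
    rw [← Nat.pow_dvd_pow_iff (two_ne_zero)]
    exact ⟨_, E2⟩
  have E3 : y ^ 2 = 4 * s * T * ((m + 1) * m) + 9 * s ^ 2 := by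
    rw [hy, mul_pow] at E2
    exact Nat.eq_of_mul_eq_mul_left (by positivity) E2
  have hspos : 0 < s := by
    rcases Nat.eq_zero_or_pos s with h | h
    · rw [h, zero_mul] at E1
      have : 0 < m := by omega
      have : 0 < T * ((m + 1) * m * (m + 2) ^ 2) := by positivity
      omega
    · exact h
  have hTs : T < s := by
    have hle : 16 * (P * (P + 3 * (m + 2))) ≤ ((m - 1) * (m + 5)) ^ 2 := by
      have hm1 : m - 1 = d + d' := by omega
      have e1 : 4 * P ≤ (d + d') ^ 2 := by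
        rw [hP]
        nlinarith [sq_nonneg ((d : ℤ) - d'), four_mul_le_sq_add d d']
      have e2 : 4 * (P + 3 * (m + 2)) ≤ (m + 5) ^ 2 := by
        have : m + 5 = (d + 3) + (d' + 3) := by omega
        have e3 : P + 3 * (m + 2) = (d + 3) * (d' + 3) := by
          have : m = d + d' + 1 := by omega
          rw [hP, this]
          ring
        rw [this, e3]
        nlinarith [four_mul_le_sq_add (d + 3) (d' + 3)]
      rw [hm1, mul_pow]
      calc 16 * (P * (P + 3 * (m + 2))) = (4 * P) * (4 * (P + 3 * (m + 2))) := by ring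
        _ ≤ _ := Nat.mul_le_mul e1 e2
    have hlt : ((m - 1) * (m + 5)) ^ 2 < 16 * ((m + 1) * m * (m + 2) ^ 2) := by
      obtain ⟨k, rfl⟩ : ∃ k, m = k + 1 := ⟨m - 1, by omega⟩
      rw [Nat.add_sub_cancel]
      nlinarith [sq_nonneg k]
    by_contra hc
    push Not at hc
    have : 16 * (s * ((m + 1) * m * (m + 2) ^ 2)) ≤ 16 * (s * (P * (P + 3 * (m + 2)))) := by
      rw [← E1]
      exact Nat.mul_le_mul_left _ (Nat.mul_le_mul_right _ hc)
    have h3 : s * (16 * ((m + 1) * m * (m + 2) ^ 2)) ≤ s * ((m - 1) * (m + 5)) ^ 2 := by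
      calc s * (16 * ((m + 1) * m * (m + 2) ^ 2)) = 16 * (s * ((m + 1) * m * (m + 2) ^ 2)) := by ring
        _ ≤ 16 * (s * (P * (P + 3 * (m + 2)))) := this
        _ = s * (16 * (P * (P + 3 * (m + 2)))) := by ring
        _ ≤ _ := Nat.mul_le_mul_left _ hle
    have h4 := Nat.le_of_mul_le_mul_left h3 hspos
    omega
  refine ⟨T, y, hTpos, hTs, ?_⟩
  obtain ⟨u, hu⟩ : ∃ u, 9 * s = T + u := ⟨9 * s - T, by omega⟩
  rw [hu, Nat.add_sub_cancel_left, E3, show 2 * (m + 1) - 1 = 2 * m + 1 by omega]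
  have : 9 * s ^ 2 = s * T + s * u := by
    calc 9 * s ^ 2 = s * (9 * s) := by ring
      _ = _ := by rw [hu]; ring
  rw [this]
  ring

end Pool.Agent.L7h47.TN
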