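import Pool.Agent.L7h65.TN.Stm

/-!
Project TN (helper65): part EQT: the intended values satisfy the equations of the programs.
-/

set_option autoImplicit false

namespace Pool.Agent.L7h47.TN

open Pool.Agent.NPC Pool.Agent.NPC.ER Pool.Agent.H558R2 Pool.Agent.H622R3.SM Pool.Agent.W920.FC
  Pool.Agent.L7h61.CH Pool.Agent.L7h65.TN

open TEQ (Good)

section

variable {m n : ℕ} (σ : List Bool) (A : Fin m → Fin n → ℝ) (b : Fin m → ℝ) (R : Key)

lemma w2 : vv σ A b R [2] = 1 := rfl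
lemma w3 : vv σ A b R [3] = 0 := rfl
lemma w0 (i j : ℕ) (hi : i < m) (hj : j < n) : vv σ A b R [0, i, j] = A ⟨i, hi⟩ ⟨j, hj⟩ := by
  have e : vv σ A b R [0, i, j] = if h : i < m ∧ j < n then A ⟨i, h.1⟩ ⟨j, h.2⟩ else 0 := rfl
  rw [e, dif_pos ⟨hi, hj⟩]
lemma w1 (i : ℕ) (hi : i < m) : vv σ A b R [1, i] = b ⟨i, hi⟩ := by
  have e : vv σ A b R [1, i] = if h : i < m then b ⟨i, h⟩ else 0 := rfl
  rw [e, dif_pos hi]
lemma w60 (t : ℕ) : vv σ A b R [60, t] = (t : ℝ) := rfl
lemma w61 (t s : ℕ) : vv σ A b R [61, t, s] = (t : ℝ) ^ s := rfl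
lemma w62 (c j : ℕ) : vv σ A b R [62, c, j] = ue (ww σ A) c j := rfl
lemma w63 (t a j c : ℕ) : vv σ A b R [63, t, a, j, c] =
    (t : ℝ) ^ xp m n a c * ue (ww σ A) c j := rfl
lemma w64 (t a j c : ℕ) : vv σ A b R [64, t, a, j, c] =
    ∑ c' ∈ Finset.range c, (t : ℝ) ^ xp m n a c' * ue (ww σ A) c' j := rfl
lemma w65 (t r : ℕ) : vv σ A b R [65, t, r] =
    (t : ℝ) ^ (2 * ee m n) * (if h : r - (n + n) < m then b ⟨r - (n + n), h⟩ else 0) := rfl
lemma w50 (t : ℕ) (r : Reg) : vv σ A b R (50 :: t :: r) =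
    vreg (mm m n) n (enc (mm m n) n R) 0 (AA σ A t, BB n b t) r := rfl
lemma w70 (j t : ℕ) : vv σ A b R [70, j, t] = df σ A b R j t := rfl

lemma wbase (r : Reg) (hr : r ∈ baseReg) : vv σ A b R r = start A b r := by
  have hr' : r.headD 0 < 4 := hr
  unfold vv
  split <;> first | rfl | (exfalso; simp at hr')

lemma wpre (t : ℕ) (r : Reg) : vv σ A b R (pre t r) =
    vreg (mm m n) n (enc (mm m n) n R) 0 (AA σ A t, BB n b t) r := by
  unfold pre
  by_cases h : r = [2] ∨ r = [3]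
  · rw [if_pos h]
    rcases h with h | h <;> rw [h] <;> rfl
  · rw [if_neg h]; rfl

lemma good_add {V : Reg → ℝ} {d x y : Reg} (h : V d = V x + V y) : Good V ⟨Op.add, d, x, y⟩ :=
  ⟨h, fun h => by cases h⟩
lemma good_sub {V : Reg → ℝ} {d x y : Reg} (h : V d = V x - V y) : Good V ⟨Op.sub, d, x, y⟩ :=
  ⟨h, fun h => by cases h⟩
lemma good_mul {V : Reg → ℝ} {d x y : Reg} (h : V d = V x * V y) : Good V ⟨Op.mul, d, x, y⟩ :=
  ⟨h, fun h => by cases h⟩

lemma good_num (K : ℕ) : ∀ I ∈ numP K, Good (vv σ A b R) I := by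
  intro I hI
  unfold numP at hI
  rcases List.mem_cons.1 hI with h | h
  · rw [h]
    apply good_add
    rw [w60, w3]; simp
  · obtain ⟨t, -, rfl⟩ := List.mem_map.1 h
    apply good_add
    rw [w60, w60, w2]; push_cast; ring

lemma good_pow (p t : ℕ) : ∀ I ∈ powP p t, Good (vv σ A b R) I := by
  intro I hI
  unfold powP at hI
  rcases List.mem_cons.1 hI with h | h
  · rw [h]
    apply good_add
    rw [w61, w2, w3]; simp
  · obtain ⟨s, -, rfl⟩ := List.mem_map.1 h
    apply good_mul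
    rw [w61, w61, w60, pow_succ]

lemma ue_lt (W : Fin m → Fin n → ℝ) (c j : ℕ) (hj : j < n) : ue W c j = uu W c ⟨j, hj⟩ := by
  unfold ue
  rw [dif_pos hj]

lemma good_uI (c j : ℕ) (hc : c < n + m) (hj : j < n) : Good (vv σ A b R) (uI n σ c j) := by
  unfold uI
  split_ifs with h1 h2 h3 h4
  · apply good_add
    rw [w62, w2, w3, ue_lt _ _ _ hj]
    unfold uu
    rw [if_pos h1, if_pos h2]
    have : Even ((⟨j, hj⟩ : Fin n) : ℕ) := Nat.even_iff.2 h3
    rw [this.neg_one_pow]; ring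
  · apply good_sub
    rw [w62, w2, w3, ue_lt _ _ _ hj]
    unfold uu
    rw [if_pos h1, if_pos h2]
    have : Odd ((⟨j, hj⟩ : Fin n) : ℕ) := Nat.odd_iff.2 (by
      show j % 2 = 1
      omega)
    rw [this.neg_one_pow]; ring
  · apply good_add
    rw [w62, w3, ue_lt _ _ _ hj]
    unfold uu
    rw [if_pos h1, if_neg h2]; ring
  · apply good_sub
    rw [w62, w3, w0 σ A b R _ _ (by omega) hj, ue_lt _ _ _ hj]
    unfold uu
    rw [if_neg h1, dif_pos (by omega)]
    unfold ww ss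
    rw [if_pos h4]; ring
  · apply good_add
    rw [w62, w3, w0 σ A b R _ _ (by omega) hj, ue_lt _ _ _ hj]
    unfold uu
    rw [if_neg h1, dif_pos (by omega)]
    unfold ww ss
    rw [if_neg h4]; ring

lemma good_u : ∀ I ∈ uP m n σ, Good (vv σ A b R) I := by
  intro I hI
  unfold uP at hI
  obtain ⟨c, hc, h⟩ := List.mem_flatMap.1 hI
  obtain ⟨j, hj, rfl⟩ := List.mem_map.1 h
  exact good_uI σ A b R c j (List.mem_range.1 hc) (List.mem_range.1 hj)

lemma good_r (t : ℕ) : ∀ I ∈ rP m n t, Good (vv σ A b R) I := by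
  intro I hI
  unfold rP at hI
  obtain ⟨a, ha, h⟩ := List.mem_flatMap.1 hI
  obtain ⟨j, hj, h⟩ := List.mem_flatMap.1 h
  rcases List.mem_cons.1 h with h | h
  · rw [h]
    apply good_add
    rw [w64, w3]; simp
  · obtain ⟨c, hc, h⟩ := List.mem_flatMap.1 h
    rcases List.mem_cons.1 h with h | h
    · rw [h]
      apply good_mul
      rw [w63, w61, w62]
    · rw [List.mem_singleton.1 h]
      apply good_add
      rw [w64, w64, w63, Finset.sum_range_succ]

lemma rr_eq (W : Fin m → Fin n → ℝ) (t : ℝ) (a j : ℕ) (hj : j < n) :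
    rr W t a ⟨j, hj⟩ = ∑ c' ∈ Finset.range (n + m), t ^ xp m n a c' * ue W c' j := by
  unfold rr
  refine Finset.sum_congr rfl fun c _ => ?_
  rw [ue_lt _ _ _ hj]

lemma good_a (t : ℕ) : ∀ I ∈ aP m n σ t, Good (vv σ A b R) I := by
  intro I hI
  unfold aP at hI
  obtain ⟨r, hr, h⟩ := List.mem_flatMap.1 hI
  obtain ⟨j, hj, rfl⟩ := List.mem_map.1 h
  have hr' := List.mem_range.1 hr
  have hj' := List.mem_range.1 hj
  have key : vv σ A b R [50, t, 0, r, j] =
      (if ngr n σ r = true then -1 else 1) * rr (ww σ A) t (psr n r) ⟨j, hj'⟩ := by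
    rw [w50, TEQ.v0 _ _ _ _ _ hr' hj']
    rfl
  unfold aI
  split_ifs with h1
  · apply good_sub
    rw [key, if_pos h1, w3, w64, rr_eq]; ring
  · apply good_add
    rw [key, if_neg h1, w3, w64, rr_eq]; ring

lemma good_b (t : ℕ) : ∀ I ∈ bP m n t, Good (vv σ A b R) I := by
  intro I hI
  unfold bP at hI
  obtain ⟨r, hr, h⟩ := List.mem_flatMap.1 hI
  have hr' := List.mem_range.1 hr
  have key : vv σ A b R [50, t, 1, r] = BB n b t ⟨r, hr'⟩ := by
    rw [w50, TEQ.v1 _ _ _ _ hr']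
  unfold bI at h
  split_ifs at h with h1
  · rw [List.mem_singleton.1 h]
    apply good_sub
    rw [key, w3, w61]
    unfold BB
    rw [if_pos h1]; ring
  · rcases List.mem_cons.1 h with h | h
    · rw [h]
      apply good_mul
      have hlt : r - (n + n) < m := by unfold mm at hr'; omega
      rw [w65, w61, w1 σ A b R _ hlt, dif_pos hlt]
    · rw [List.mem_singleton.1 h]
      apply good_sub
      rw [key, w65, w61]
      unfold BB
      rw [if_neg h1]

lemma good_min (hn : 1 ≤ n) (t : ℕ) : ∀ I ∈ minP m n R t, Good (vv σ A b R) I := by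
  intro I hI
  unfold minP at hI
  obtain ⟨I', hI', rfl⟩ := List.mem_map.1 hI
  have h := (t_EQ (mm m n) n (enc (mm m n) n R) 0 (AA σ A t, BB n b t)
    (by unfold mm; omega)).2 I' hI'
  unfold ren
  constructor
  · show vv σ A b R (pre t I'.dst) = I'.op.eval (vv σ A b R (pre t I'.fst)) (vv σ A b R (pre t I'.snd))
    rw [wpre, wpre, wpre]
    exact h.1
  · show I'.op = Op.div → vv σ A b R (pre t I'.snd) ≠ 0
    rw [wpre]
    exact h.2

lemma good_t (hn : 1 ≤ n) (t : ℕ) : ∀ I ∈ tP m n σ R t, Good (vv σ A b R) I := by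
  intro I hI
  unfold tP at hI
  simp only [List.mem_append] at hI
  rcases hI with h | h | h | h | h
  · exact good_pow σ A b R _ _ I h
  · exact good_r σ A b R t I h
  · exact good_a σ A b R t I h
  · exact good_b σ A b R t I h
  · exact good_min σ A b R hn t I h

lemma good_dif (K : ℕ) : ∀ I ∈ difP K, Good (vv σ A b R) I := by
  intro I hI
  unfold difP at hI
  rcases List.mem_append.1 hI with h | h
  · obtain ⟨t, -, rfl⟩ := List.mem_map.1 h
    apply good_add
    rw [w70, w50, w3, TEQ.v11, add_zero]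
    rfl
  · obtain ⟨j, -, h⟩ := List.mem_flatMap.1 h
    obtain ⟨t, -, h⟩ := List.mem_flatMap.1 h
    split_ifs at h with h1
    · rw [List.mem_singleton.1 h]
      apply good_sub
      rw [w70, w70, w70]
      unfold df
      rw [Function.iterate_succ_apply']
      rfl
    · exact absurd h (List.not_mem_nil)

end

theorem eqt : S_EQT := by
  intro m n σ A b R hn
  refine ⟨fun r hr => wbase σ A b R r hr, ?_⟩
  intro I hI
  unfold prg at hI
  simp only [List.mem_append] at hI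
  rcases hI with h | h | h | h
  · exact good_num σ A b R _ I h
  · exact good_u σ A b R I h
  · obtain ⟨t, -, h⟩ := List.mem_flatMap.1 h
    exact good_t σ A b R hn t I h
  · exact good_dif σ A b R _ I h

end Pool.Agent.L7h47.TN
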