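import Pool.Agent.L7h55.TN.Stm2

/-! # Project TN (helper55), second half, part GAU -/

set_option autoImplicit false

namespace Pool.Agent.L7h47.TN

open Polynomial
open Pool.Agent.L7h55.TN

lemma coeff_T_top (A : ℕ) : (T A).coeff (2 * A + 2) = A := by
  have h1 : (X ^ (2 * A + 2) - 1 : ℤ[X]).coeff (2 * A + 2) = 1 := by
    rw [coeff_sub, coeff_X_pow, if_pos rfl, coeff_one, if_neg (by omega)]
    norm_num
  have h2 : (X ^ (2 * A + 1) - X : ℤ[X]).coeff (2 * A + 2) = 0 := by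
    rw [coeff_sub, coeff_X_pow, if_neg (by omega), coeff_X, if_neg (by omega)]
    norm_num
  unfold T
  rw [coeff_sub, coeff_C_mul, coeff_C_mul, h1, h2]
  ring

lemma coeff_T_sub (A : ℕ) (hA : 2 ≤ A) : (T A).coeff (2 * A + 1) = -((A : ℤ) + 1) := by
  have h1 : (X ^ (2 * A + 2) - 1 : ℤ[X]).coeff (2 * A + 1) = 0 := by
    rw [coeff_sub, coeff_X_pow, if_neg (by omega), coeff_one, if_neg (by omega)]
    norm_num
  have h2 : (X ^ (2 * A + 1) - X : ℤ[X]).coeff (2 * A + 1) = 1 := by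
    rw [coeff_sub, coeff_X_pow, if_pos rfl, coeff_X, if_neg (by omega)]
    norm_num
  unfold T
  rw [coeff_sub, coeff_C_mul, coeff_C_mul, h1, h2]
  ring

lemma natDegree_T (A : ℕ) (hA : 2 ≤ A) : (T A).natDegree = 2 * A + 2 := by
  refine le_antisymm ?_ ?_
  · rw [natDegree_le_iff_coeff_eq_zero]
    intro N hN
    have h1 : (X ^ (2 * A + 2) - 1 : ℤ[X]).coeff N = 0 := by
      rw [coeff_sub, coeff_X_pow, if_neg (by omega), coeff_one, if_neg (by omega)]
      norm_num
    have h2 : (X ^ (2 * A + 1) - X : ℤ[X]).coeff N = 0 := by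
      rw [coeff_sub, coeff_X_pow, if_neg (by omega), coeff_X, if_neg (by omega)]
      norm_num
    unfold T
    rw [coeff_sub, coeff_C_mul, coeff_C_mul, h1, h2]
    ring
  · refine le_natDegree_of_ne_zero ?_
    rw [coeff_T_top]
    exact_mod_cast (by omega : A ≠ 0)

lemma leadingCoeff_T (A : ℕ) (hA : 2 ≤ A) : (T A).leadingCoeff = A := by
  rw [leadingCoeff, natDegree_T A hA, coeff_T_top]

lemma monic_L4 : (L4 : ℤ[X]).Monic := by
  unfold L4
  exact ((monic_X_sub_C (1 : ℤ)).pow 3).mul (monic_X_add_C (1 : ℤ))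

lemma natDegree_L4 : (L4 : ℤ[X]).natDegree = 4 := by
  unfold L4
  have h1 : (X - 1 : ℤ[X]).natDegree = 1 := natDegree_X_sub_C (1 : ℤ)
  have h2 : (X + 1 : ℤ[X]).natDegree = 1 := natDegree_X_add_C (1 : ℤ)
  have m1 : (X - 1 : ℤ[X]).Monic := monic_X_sub_C (1 : ℤ)
  have m2 : (X + 1 : ℤ[X]).Monic := monic_X_add_C (1 : ℤ)
  rw [(m1.pow 3).natDegree_mul m2, m1.natDegree_pow, h1, h2]

lemma SP_eq (A : ℕ) : SP (2 * A + 1) = C 2 * T A := by
  unfold SP T
  have h1 : ((2 * A + 1 : ℕ) : ℤ) - 1 = 2 * A := by push_cast; ring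
  have h2 : ((2 * A + 1 : ℕ) : ℤ) + 1 = 2 * (A + 1) := by push_cast; ring
  rw [h1, h2, C_mul, C_mul]
  ring

lemma isPrimitive_T (A : ℕ) (hA : 2 ≤ A) : (T A).IsPrimitive := by
  intro r hr
  rw [C_dvd_iff_dvd_coeff] at hr
  have h1 := hr (2 * A + 2)
  have h2 := hr (2 * A + 1)
  rw [coeff_T_top] at h1
  rw [coeff_T_sub A hA, dvd_neg] at h2
  have h3 : r ∣ 1 := by
    have := dvd_sub h2 h1
    rwa [add_sub_cancel_left] at this
  exact isUnit_of_dvd_one h3

/-- Part GAU. -/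
theorem s_GAU : S_GAU := by
  intro A P hA hP hirr
  have hL : (X - 1 : ℚ[X]) ^ 3 * (X + 1) = L4.map (Int.castRingHom ℚ) := by
    unfold L4
    simp
  rw [hL, SP_eq, Polynomial.map_mul, map_C] at hP
  have hC2 : (Int.castRingHom ℚ) 2 = (2 : ℚ) := by simp
  rw [hC2] at hP
  have hdvd : L4 ∣ T A := by
    rw [← Polynomial.map_dvd_map (Int.castRingHom ℚ) Int.cast_injective monic_L4]
    refine ⟨C (1 / 2) * P, ?_⟩
    have : C (1 / 2 : ℚ) * (C 2 * (T A).map (Int.castRingHom ℚ)) =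
        (T A).map (Int.castRingHom ℚ) := by
      rw [← mul_assoc, ← C_mul]
      norm_num
    rw [← this, ← hP]
    ring
  obtain ⟨U, hU⟩ := hdvd
  have hL0 : L4.map (Int.castRingHom ℚ) ≠ 0 := (monic_L4.map _).ne_zero
  have hPU : P = C 2 * U.map (Int.castRingHom ℚ) := by
    apply mul_left_cancel₀ hL0
    rw [hP, hU, Polynomial.map_mul]
    ring
  have hUprim : U.IsPrimitive := by
    intro r hr
    exact isPrimitive_T A hA r (hr.trans ⟨L4, by rw [hU, mul_comm]⟩)
  have hUirr : ¬ Irreducible U := by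
    intro h
    rw [Polynomial.IsPrimitive.Int.irreducible_iff_irreducible_map_cast hUprim] at h
    apply hirr
    rw [hPU]
    have hu : IsUnit (C (2 : ℚ)) := isUnit_C.2 (by norm_num)
    exact (irreducible_isUnit_mul hu).2 h
  have hUdeg : U.natDegree + 4 = 2 * A + 2 := by
    rw [← natDegree_T A hA, hU, monic_L4.natDegree_mul', natDegree_L4, add_comm]
    rintro rfl
    rw [mul_zero] at hU
    have := natDegree_T A hA
    rw [hU, natDegree_zero] at this
    omega
  have hUlead : U.leadingCoeff = A := by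
    rw [← leadingCoeff_T A hA, hU, leadingCoeff_mul, monic_L4.leadingCoeff, one_mul]
  have hUunit : ¬ IsUnit U := fun h => by
    have := natDegree_eq_zero_of_isUnit h
    omega
  have hex : ∃ f g : ℤ[X], U = f * g ∧ ¬ IsUnit f ∧ ¬ IsUnit g := by
    by_contra hc
    push Not at hc
    refine hUirr ⟨hUunit, fun f g h => ?_⟩
    by_contra h2
    rw [not_or] at h2
    exact h2.2 (hc f g h h2.1)
  obtain ⟨f, g, hfg, hf, hg⟩ := hex
  have hpos : ∀ q : ℤ[X], q ∣ U → ¬ IsUnit q → 0 < q.natDegree := by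
    intro q hq hu
    rcases Nat.eq_zero_or_pos q.natDegree with h | h
    · rw [natDegree_eq_zero] at h
      obtain ⟨r, rfl⟩ := h
      exact absurd (isUnit_C.2 (hUprim r hq)) hu
    · exact h
  have df := hpos f ⟨g, hfg⟩ hf
  have dg := hpos g ⟨f, by rw [hfg, mul_comm]⟩ hg
  have hll : f.leadingCoeff * g.leadingCoeff = A := by
    rw [← leadingCoeff_mul, ← hfg, hUlead]
  have hApos : (0 : ℤ) < A := by exact_mod_cast (by omega : 0 < A)
  rw [← hll] at hApos
  rcases mul_pos_iff.1 hApos with ⟨h1, h2⟩ | ⟨h1, h2⟩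
  · exact ⟨f, g, by rw [hU, hfg], df, dg, h1, h2⟩
  · exact ⟨-f, -g, by rw [hU, hfg]; ring, by rwa [natDegree_neg], by rwa [natDegree_neg],
      by rw [leadingCoeff_neg]; omega, by rw [leadingCoeff_neg]; omega⟩

end Pool.Agent.L7h47.TN
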