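import Pool.Agent.L7h26.TN.Stm

/-! # Project TN, parts DVD, ONE, PW -/

set_option autoImplicit false

namespace Pool.Agent.L7h47.TN

open Polynomial
open Pool.Agent.L7h26.TN

lemma S_comp (n : ℕ) : (S n).comp (X + 1) =
    C ((n : ℤ) - 1) * ((X + 1) ^ (n + 1) - 1) - C ((n : ℤ) + 1) * ((X + 1) ^ n - (X + 1)) := by
  simp [S]

lemma coeff_S_comp (n k : ℕ) : ((S n).comp (X + 1)).coeff k =
    ((n : ℤ) - 1) * (((n + 1).choose k : ℤ) - (1 : ℤ[X]).coeff k) -
      ((n : ℤ) + 1) * ((n.choose k : ℤ) - (X + 1 : ℤ[X]).coeff k) := by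
  rw [S_comp]
  simp only [coeff_sub, coeff_C_mul, coeff_X_add_one_pow]

lemma two_mul_choose_two (n : ℕ) : 2 * ((n.choose 2 : ℕ) : ℤ) = n * (n - 1) := by
  induction n with
  | zero => simp
  | succ n ih =>
    rw [Nat.choose_succ_succ' n 1, Nat.choose_one_right]
    push_cast
    linarith

lemma six_mul_choose_three (n : ℕ) : 6 * ((n.choose 3 : ℕ) : ℤ) = n * (n - 1) * (n - 2) := by
  induction n with
  | zero => simp
  | succ n ih =>
    rw [Nat.choose_succ_succ' n 2]
    have := two_mul_choose_two n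
    push_cast
    linear_combination ih + 3 * this

/-- Part DVD. -/
theorem s_DVD : S_DVD := by
  intro n hn
  have h : (X : ℤ[X]) ^ 3 ∣ (S n).comp (X + 1) := by
    rw [X_pow_dvd_iff]
    intro d hd
    rw [coeff_S_comp]
    interval_cases d
    · simp
    · have h3 : (1 : ℤ[X]).coeff 1 = 0 := by simp [coeff_one]
      have h4 : (X + 1 : ℤ[X]).coeff 1 = 1 := by simp [coeff_one]
      rw [h3, h4]
      push_cast [Nat.choose_one_right]
      ring
    · have h1 := two_mul_choose_two n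
      have h2 := two_mul_choose_two (n + 1)
      have h3 : (1 : ℤ[X]).coeff 2 = 0 := by simp [coeff_one]
      have h4 : (X + 1 : ℤ[X]).coeff 2 = 0 := by simp [coeff_one, coeff_X]
      rw [h3, h4]
      push_cast at h2
      have : 2 * (((n : ℤ) - 1) * (((n + 1).choose 2 : ℤ) - 0) -
          ((n : ℤ) + 1) * ((n.choose 2 : ℤ) - 0)) = 0 := by
        linear_combination ((n : ℤ) - 1) * h2 - ((n : ℤ) + 1) * h1
      linarith
  obtain ⟨q, hq⟩ := h
  refine ⟨q.comp (X - 1), ?_⟩
  have e : ((S n).comp (X + 1)).comp (X - 1) = S n := by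
    rw [comp_assoc]
    simp
  rw [← e, hq]
  simp

/-- Part ONE. -/
theorem s_ONE : S_ONE := by
  intro n F hn h
  have h1 : ((X : ℤ[X]) ^ 3 * F.comp (X + 1)) = (S n).comp (X + 1) := by
    rw [← h]
    simp
  have h2 : ((X : ℤ[X]) ^ 3 * F.comp (X + 1)).coeff 3 = ((S n).comp (X + 1)).coeff 3 := by
    rw [h1]
  rw [coeff_S_comp, show (3 : ℕ) = 0 + 3 from rfl, coeff_X_pow_mul, zero_add] at h2
  have h3 : (F.comp (X + 1)).coeff 0 = F.eval 1 := by
    rw [coeff_zero_eq_eval_zero, eval_comp]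
    simp
  have h4 : (1 : ℤ[X]).coeff 3 = 0 := by simp [coeff_one]
  have h5 : (X + 1 : ℤ[X]).coeff 3 = 0 := by simp [coeff_one, coeff_X]
  rw [h3, h4, h5] at h2
  have h6 := six_mul_choose_three n
  have h7 := six_mul_choose_three (n + 1)
  push_cast at h7
  rw [h2]
  linear_combination ((n : ℤ) - 1) * h7 - ((n : ℤ) + 1) * h6

lemma red_eq_zero {p : ℕ} {g : ℤ[X]} (h : red p g = 0) : ∃ g' : ℤ[X], g = C (p : ℤ) * g' := by
  have : C (p : ℤ) ∣ g := by
    rw [C_dvd_iff_dvd_coeff]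
    intro i
    have h1 := congrArg (fun q : (ZMod p)[X] => q.coeff i) h
    simp only [red, coeff_map, coeff_zero, eq_intCast] at h1
    exact (ZMod.intCast_zmod_eq_zero_iff_dvd _ _).1 h1
  exact this

/-- Part PW. -/
theorem s_PW : S_PW := by
  intro p hp π w A B E hπ h
  have : Fact p.Prime := ⟨hp⟩
  have hC : (C (p : ℤ)).map (Int.castRingHom (ZMod p)) = 0 := by
    simp
  have h1 := congrArg (fun q : ℤ[X] => q.map (Int.castRingHom (ZMod p))) h
  simp only [Polynomial.map_mul, Polynomial.map_add, Polynomial.map_pow, hC] at h1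
  have h2 : (red p π) ^ 2 * red p E = 0 := by
    have : (0 : (ZMod p)[X]) = (red p π) ^ 2 * red p E := by
      simpa [red] using h1
    exact this.symm
  have h3 : red p E = 0 := by
    rcases mul_eq_zero.1 h2 with h4 | h4
    · exact absurd (pow_eq_zero_iff (two_ne_zero)|>.1 h4) hπ
    · exact h4
  obtain ⟨E', rfl⟩ := red_eq_zero h3
  have hp0 : (C (p : ℤ) : ℤ[X]) ≠ 0 := by
    rw [Ne, C_eq_zero]
    exact_mod_cast hp.ne_zero
  have h5 : w = C (p : ℤ) * A + π * B + π ^ 2 * E' := by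
    apply mul_left_cancel₀ hp0
    rw [h]
    ring
  refine ⟨red p B + red p π * red p E', ?_⟩
  rw [h5]
  simp only [red, Polynomial.map_mul, Polynomial.map_add, Polynomial.map_pow, hC]
  ring

end Pool.Agent.L7h47.TN
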