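import Pool.Agent.L7h65.TN.Stm
import Pool.Agent.TH650.GB.CB

/-!
Project TN (helper65): parts JW, GK, POS.
-/

set_option autoImplicit false

namespace Pool.Agent.L7h47.TN

open Pool.Agent.L7h65.TN
open Finset Filter

/-- the induction along the unit rows -/
theorem jw_aux {m n : ℕ} (W : Fin m → Fin n → ℝ) (hW : TNN W) : ∀ (k : ℕ) (f : Fin k → ℕ)
    (g : Fin k → Fin n), StrictMono f → StrictMono g → (∀ i, f i < n + m) →
    (∀ i : Fin k, ∀ j : ℕ, j + f i + 1 ≤ n → ∃ h : j < k, (g ⟨j, h⟩ : ℕ) = j) →
    0 ≤ (Matrix.of fun i j => uu W (f i) (g j)).det ∧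
    ((∀ i, f i < n) → (Matrix.of fun i j => uu W (f i) (g j)).det = 1) := by
  intro k
  induction k with
  | zero =>
    intro f g _ _ _ _
    rw [Matrix.det_fin_zero]
    exact ⟨zero_le_one, fun _ => rfl⟩
  | succ k ih =>
    intro f g hf hg hfm hc
    by_cases h0 : f 0 < n
    · -- the first row is a unit row
      obtain ⟨hj, hgj⟩ := hc 0 (n - 1 - f 0) (by omega)
      set j0 : Fin (k + 1) := ⟨n - 1 - f 0, hj⟩ with hj0
      have hrow : ∀ j : Fin (k + 1), uu W (f 0) (g j) = if j = j0 then (-1) ^ (j0 : ℕ) else 0 := by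
        intro j
        unfold uu
        rw [if_pos h0]
        by_cases h : j = j0
        · rw [if_pos h, h, hgj, if_pos (by omega)]
        · rw [if_neg h, if_neg]
          intro h2
          apply h
          apply hg.injective
          apply Fin.ext
          rw [hgj]
          omega
      have hdet : (Matrix.of fun i j => uu W (f i) (g j)).det =
          (Matrix.of fun (i : Fin k) (j : Fin k) => uu W (f i.succ) (g (j0.succAbove j))).det := by
        rw [Matrix.det_succ_row_zero]
        rw [Finset.sum_eq_single j0]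
        · have e1 : (Matrix.of fun i j => uu W (f i) (g j)) 0 j0 = (-1) ^ (j0 : ℕ) := by
            rw [Matrix.of_apply, hrow, if_pos rfl]
          rw [e1, ← pow_add, Even.neg_one_pow ⟨(j0 : ℕ), rfl⟩, one_mul]
          rfl
        · intro j _ hjj
          have e1 : (Matrix.of fun i j => uu W (f i) (g j)) 0 j = 0 := by
            rw [Matrix.of_apply, hrow, if_neg hjj]
          rw [e1]; ring
        · intro h; exact absurd (Finset.mem_univ _) h
      have key := ih (fun i => f i.succ) (fun j => g (j0.succAbove j))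
        (fun i j hij => hf (Fin.succ_lt_succ_iff.2 hij))
        (fun i j hij => hg (Fin.strictMono_succAbove j0 hij))
        (fun i => hfm _) (by
          intro i j hij
          have hlt : f 0 < f i.succ := hf (Fin.succ_pos i)
          have hjlt : j < n - 1 - f 0 := by omega
          have hjk : j < k := by omega
          refine ⟨hjk, ?_⟩
          obtain ⟨h1, h2⟩ := hc i.succ j hij
          have h3 : j0.succAbove ⟨j, hjk⟩ = ⟨j, h1⟩ := by
            rw [Fin.succAbove_of_castSucc_lt]
            · rfl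
            · rw [Fin.lt_def]; exact hjlt
          show ((g (j0.succAbove ⟨j, hjk⟩) : Fin n) : ℕ) = j
          rw [h3, h2])
      rw [hdet]
      exact ⟨key.1, fun h => key.2 (fun i => h _)⟩
    · -- a minor of `W`
      have hge : ∀ i, n ≤ f i := fun i => (not_lt.1 h0).trans (hf.monotone (Fin.zero_le i))
      refine ⟨?_, fun h => absurd (h 0) h0⟩
      have hlt : ∀ i, f i - n < m := fun i => by
        have := hfm i; have := hge i; omega
      have e : (Matrix.of fun i j => uu W (f i) (g j)) =
          (Matrix.of fun i j => W ⟨f i - n, hlt i⟩ (g j)) := by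
        ext i j
        rw [Matrix.of_apply, Matrix.of_apply]
        unfold uu
        rw [if_neg (not_lt.2 (hge i)), dif_pos (hlt i)]
      rw [e]
      refine hW (k + 1) (fun i => ⟨f i - n, hlt i⟩) g ?_ hg
      intro i j hij
      rw [Fin.lt_def]
      show f i - n < f j - n
      have := hf hij
      have := hge i
      omega

theorem jw : S_JW := by
  intro m n W hW
  have key : ∀ f : Fin n → ℕ, StrictMono f → (∀ i, f i < n + m) →
      0 ≤ (Matrix.of fun i j => uu W (f i) j).det ∧
      ((∀ i, f i < n) → (Matrix.of fun i j => uu W (f i) j).det = 1) := by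
    intro f hf hfm
    exact jw_aux W hW n f id hf strictMono_id hfm (fun i j hij => ⟨by omega, rfl⟩)
  refine ⟨fun f hf hfm => (key f hf hfm).1, ?_⟩
  have h := (key (fun i => (i : ℕ)) (fun i j hij => hij) (fun i => by have := i.2; omega)).2
    (fun i => i.2)
  rw [h]; exact one_pos

theorem dst_cast (a c : ℕ) : ((dst a c * dst a c : ℕ) : ℤ) = ((a : ℤ) - c) ^ 2 := by
  unfold dst
  rcases le_total a c with h | h
  · rw [Nat.sub_eq_zero_of_le h, zero_add]
    push_cast [Nat.cast_sub h]
    ring
  · rw [Nat.sub_eq_zero_of_le h, add_zero]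
    push_cast [Nat.cast_sub h]
    ring

theorem xp_cast {m n a c : ℕ} (ha : a < n + m) (hc : c < n + m) :
    ((xp m n a c : ℕ) : ℤ) = 2 * ((ee m n : ℤ) - ((a : ℤ) - c) ^ 2) := by
  unfold xp
  have h1 : dst a c * dst a c ≤ ee m n := by
    unfold ee
    have : dst a c ≤ n + m := by unfold dst; omega
    exact Nat.mul_le_mul this this
  rw [Nat.cast_mul, Nat.cast_sub h1, dst_cast]
  push_cast
  ring

/-- the rearrangement inequality for the exponents -/
theorem exp_lt {m n k : ℕ} {f g : Fin k → ℕ} (hf : StrictMono f) (hg : StrictMono g)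
    (hfm : ∀ i, f i < n + m) (hgm : ∀ i, g i < n + m) {σ : Equiv.Perm (Fin k)} (hσ : σ ≠ 1) :
    ∑ i, xp m n (f (σ i)) (g i) < ∑ i, xp m n (f i) (g i) := by
  have hmono : Monovary (fun i => (f i : ℤ)) (fun i => (g i : ℤ)) := by
    intro i j hij
    have h0 : (g i : ℤ) < g j := hij
    have h1 : g i < g j := by exact_mod_cast h0
    have h2 : i < j := hg.lt_iff_lt.1 h1
    show (f i : ℤ) ≤ f j
    exact_mod_cast (hf h2).le
  have hnot : ¬ Monovary ((fun i => (f i : ℤ)) ∘ σ) (fun i => (g i : ℤ)) := by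
    intro h
    apply hσ
    have hm : Monotone σ := by
      intro i j hij
      rcases hij.eq_or_lt with h1 | h1
      · rw [h1]
      · have h2 : (g i : ℤ) < g j := by exact_mod_cast hg h1
        have h3 : (f (σ i) : ℤ) ≤ f (σ j) := h h2
        have h4 : f (σ i) ≤ f (σ j) := by exact_mod_cast h3
        exact hf.le_iff_le.1 h4
    have hsm : StrictMono σ := hm.strictMono_of_injective σ.injective
    have : (σ : Fin k → Fin k) = id := by
      exact (StrictMono.range_inj hsm strictMono_id).1 (by
        rw [σ.surjective.range_eq, Set.range_id])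
    ext i
    rw [this]; rfl
  have h1 := (hmono.sum_comp_perm_mul_lt_sum_mul_iff (σ := σ)).2 hnot
  have h2 : ∑ i, ((f (σ i) : ℤ)) ^ 2 = ∑ i, ((f i : ℤ)) ^ 2 :=
    Equiv.sum_comp σ (fun i => ((f i : ℤ)) ^ 2)
  have h3 : ((∑ i, xp m n (f (σ i)) (g i) : ℕ) : ℤ) < ((∑ i, xp m n (f i) (g i) : ℕ) : ℤ) := by
    push_cast
    have e1 : ∀ τ : Equiv.Perm (Fin k), ∑ i, ((xp m n (f (τ i)) (g i) : ℕ) : ℤ) =
        ∑ _i : Fin k, 2 * (ee m n : ℤ) - 2 * ∑ i, ((f (τ i) : ℤ)) ^ 2 - 2 * ∑ i, ((g i : ℤ)) ^ 2 +
          4 * ∑ i, (f (τ i) : ℤ) * g i := by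
      intro τ
      rw [Finset.mul_sum, Finset.mul_sum, Finset.mul_sum, ← Finset.sum_sub_distrib,
        ← Finset.sum_sub_distrib, ← Finset.sum_add_distrib]
      refine Finset.sum_congr rfl fun i _ => ?_
      rw [xp_cast (hfm _) (hgm _)]
      ring
    have e2 := e1 1
    simp only [Equiv.Perm.coe_one, id] at e2
    rw [e1 σ, e2, h2]
    linarith
  exact_mod_cast h3

theorem gk : S_GK := by
  intro m n k f g hf hg hfm hgm
  filter_upwards [eventually_gt_atTop (((Fintype.card (Equiv.Perm (Fin k)) : ℕ) : ℝ)),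
    eventually_ge_atTop (1 : ℝ)] with T hT hT1
  have hT0 : 0 < T := by linarith
  set E : ℕ := ∑ i, xp m n (f i) (g i) with hE
  have hdet : (Matrix.of fun i j : Fin k => T ^ xp m n (f i) (g j)).det =
      ∑ σ : Equiv.Perm (Fin k), ((Equiv.Perm.sign σ : ℤ) : ℝ) * T ^ (∑ i, xp m n (f (σ i)) (g i)) := by
    rw [Matrix.det_apply']
    refine Finset.sum_congr rfl fun σ _ => ?_
    rw [← Finset.prod_pow_eq_pow_sum]
    rfl
  rw [hdet, ← Finset.add_sum_erase _ _ (Finset.mem_univ 1)]
  have h1 : ((Equiv.Perm.sign (1 : Equiv.Perm (Fin k)) : ℤ) : ℝ) *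
      T ^ (∑ i, xp m n (f ((1 : Equiv.Perm (Fin k)) i)) (g i)) = T ^ E := by
    simp [hE]
  rw [h1]
  rcases Nat.eq_zero_or_pos E with hE0 | hEpos
  · -- no other permutation
    have h2 : ∑ σ ∈ (univ : Finset (Equiv.Perm (Fin k))).erase 1,
        ((Equiv.Perm.sign σ : ℤ) : ℝ) * T ^ (∑ i, xp m n (f (σ i)) (g i)) = 0 := by
      refine Finset.sum_eq_zero fun σ hσ => ?_
      have h3 := exp_lt (m := m) (n := n) hf hg hfm hgm (Finset.ne_of_mem_erase hσ)
      rw [← hE, hE0] at h3
      exact absurd h3 (Nat.not_lt_zero _)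
    rw [h2, add_zero]; positivity
  · have h2 : |∑ σ ∈ (univ : Finset (Equiv.Perm (Fin k))).erase 1,
        ((Equiv.Perm.sign σ : ℤ) : ℝ) * T ^ (∑ i, xp m n (f (σ i)) (g i))| ≤
        (Fintype.card (Equiv.Perm (Fin k)) : ℕ) * T ^ (E - 1) := by
      refine (Finset.abs_sum_le_sum_abs _ _).trans ?_
      calc _ ≤ ∑ σ ∈ (univ : Finset (Equiv.Perm (Fin k))).erase 1, T ^ (E - 1) := by
            refine Finset.sum_le_sum fun σ hσ => ?_
            have h3 := exp_lt (m := m) (n := n) hf hg hfm hgm (Finset.ne_of_mem_erase hσ)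
            rw [← hE] at h3
            rw [abs_mul]
            have h4 : |((Equiv.Perm.sign σ : ℤ) : ℝ)| = 1 := by
              rcases Int.units_eq_one_or (Equiv.Perm.sign σ) with h | h <;> rw [h] <;> simp
            rw [h4, one_mul, abs_of_pos (by positivity)]
            exact pow_le_pow_right₀ hT1 (by omega)
        _ = ((univ : Finset (Equiv.Perm (Fin k))).erase 1).card * T ^ (E - 1) := by
            rw [Finset.sum_const, nsmul_eq_mul]
        _ ≤ _ := by
            apply mul_le_mul_of_nonneg_right _ (by positivity)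
            have : ((univ : Finset (Equiv.Perm (Fin k))).erase 1).card ≤ Fintype.card (Equiv.Perm (Fin k)) :=
              (Finset.card_le_card (Finset.erase_subset _ _)).trans (le_of_eq Finset.card_univ)
            exact_mod_cast this
    have h3 : ((Fintype.card (Equiv.Perm (Fin k)) : ℕ) : ℝ) * T ^ (E - 1) < T ^ E := by
      have h4 : T ^ E = T * T ^ (E - 1) := by
        rw [← pow_succ']; congr 1; omega
      rw [h4]
      exact mul_lt_mul_of_pos_right hT (by positivity)
    have h4 := (abs_le.1 h2).1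
    linarith

theorem pair_nonneg {n N : ℕ} (A : Matrix (Fin n) (Fin N) ℝ) (B : Matrix (Fin N) (Fin n) ℝ)
    (hA : ∀ f : Fin n → Fin N, StrictMono f → 0 < (A.submatrix id f).det)
    (hB : ∀ f : Fin n → Fin N, StrictMono f → 0 ≤ (B.submatrix f id).det) (I : Fin n → Fin N) :
    0 ≤ (A.submatrix id I).det * (B.submatrix I id).det := by
  by_cases hI : Function.Injective I
  · set σ := Tuple.sort I
    have hmono : StrictMono (I ∘ σ) := (Tuple.monotone_sort I).strictMono_of_injective
      (hI.comp σ.injective)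
    have h1 := hA _ hmono
    have h2 := hB _ hmono
    have e1 : (A.submatrix id (I ∘ σ)).det = ((Equiv.Perm.sign σ : ℤ) : ℝ) * (A.submatrix id I).det := by
      rw [← Matrix.det_permute']
      rfl
    have e2 : (B.submatrix (I ∘ σ) id).det = ((Equiv.Perm.sign σ : ℤ) : ℝ) * (B.submatrix I id).det := by
      rw [← Matrix.det_permute]
      rfl
    rw [e1] at h1
    rw [e2] at h2
    have h3 : ((Equiv.Perm.sign σ : ℤ) : ℝ) * ((Equiv.Perm.sign σ : ℤ) : ℝ) = 1 := by
      rcases Int.units_eq_one_or (Equiv.Perm.sign σ) with h | h <;> rw [h] <;> simp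
    have h4 := mul_nonneg h1.le h2
    calc (0:ℝ) ≤ _ := h4
      _ = (((Equiv.Perm.sign σ : ℤ) : ℝ) * ((Equiv.Perm.sign σ : ℤ) : ℝ)) *
          ((A.submatrix id I).det * (B.submatrix I id).det) := by ring
      _ = _ := by rw [h3, one_mul]
  · have h0 : (B.submatrix I id).det = 0 := by
      rw [Function.Injective] at hI
      push Not at hI
      obtain ⟨i, j, hij, hne⟩ := hI
      refine Matrix.det_zero_of_row_eq hne ?_
      funext l
      show B (I i) l = B (I j) l
      rw [hij]
    rw [h0, mul_zero]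

theorem pos : S_POS := by
  intro hJW hGK m n W hW
  have hev : ∀ᶠ T : ℝ in atTop, ∀ f g : Fin n → Fin (n + m), StrictMono f → StrictMono g →
      0 < (Matrix.of fun i j : Fin n => T ^ xp m n (f i : ℕ) (g j : ℕ)).det := by
    rw [eventually_all]
    intro f
    rw [eventually_all]
    intro g
    by_cases hf : StrictMono f
    · by_cases hg : StrictMono g
      · filter_upwards [hGK m n n (fun i => (f i : ℕ)) (fun i => (g i : ℕ)) (fun i j h => hf h)
          (fun i j h => hg h) (fun i => (f i).2) (fun i => (g i).2)] with T hT _ _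
        exact hT
      · exact Eventually.of_forall fun T _ h => absurd h hg
    · exact Eventually.of_forall fun T h => absurd h hf
  filter_upwards [hev] with T hT f hf
  obtain ⟨hU, hU0⟩ := hJW m n W hW
  set A : Matrix (Fin n) (Fin (n + m)) ℝ := Matrix.of fun i c => T ^ xp m n (f i : ℕ) (c : ℕ) with hA
  set B : Matrix (Fin (n + m)) (Fin n) ℝ := Matrix.of fun c j => uu W (c : ℕ) j with hB
  have hAB : (Matrix.of fun i j => rr W T (f i) j) = A * B := by
    ext i j
    rw [Matrix.of_apply, Matrix.mul_apply]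
    unfold rr
    rw [Finset.sum_range]
    rfl
  have hA' : ∀ g : Fin n → Fin (n + m), StrictMono g → 0 < (A.submatrix id g).det :=
    fun g hg => hT f g hf hg
  have hB' : ∀ g : Fin n → Fin (n + m), StrictMono g → 0 ≤ (B.submatrix g id).det :=
    fun g hg => hU (fun i => (g i : ℕ)) (fun i j h => hg h) (fun i => (g i).2)
  have hcb := Pool.Agent.TH650.GB.cb A B
  have hfac : (0 : ℝ) < ((Fintype.card (Fin n)).factorial : ℝ) := by
    exact_mod_cast Nat.factorial_pos _
  have hpos : 0 < ∑ I : Fin n → Fin (n + m), (A.submatrix id I).det * (B.submatrix I id).det := by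
    refine Finset.sum_pos' (fun I _ => pair_nonneg A B hA' hB' I) ⟨Fin.castAdd m, Finset.mem_univ _, ?_⟩
    refine mul_pos (hA' _ (fun i j h => h)) ?_
    exact hU0
  rw [← hcb] at hpos
  rw [hAB]
  exact (mul_pos_iff_of_pos_left hfac).1 hpos

end Pool.Agent.L7h47.TN
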