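import Pool.Agent.L7h47.TN.Eqt
import Pool.Agent.W920.FC.T_BITS
import Pool.Agent.H622R3.SM.T_SMALL

/-!
Project TN (helper65): part SMT: all numbers computed on rational inputs are small.
-/

set_option autoImplicit false

namespace Pool.Agent.L7h47.TN

open Pool.Agent.NPC Pool.Agent.NPC.ER Pool.Agent.H558R2 Pool.Agent.H622R3.SM Pool.Agent.W920.FC
  Pool.Agent.L7h61.CH Pool.Agent.L7h65.TN

/-- `v * D` is an integer of absolute value at most `2 ^ β`. -/
def ZB (D β : ℕ) (v : ℝ) : Prop := ∃ z : ℤ, z.natAbs ≤ 2 ^ β ∧ v * D = z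

namespace ZB

variable {D β β' : ℕ} {v w : ℝ}

theorem mono (h : ZB D β v) (hb : β ≤ β') : ZB D β' v := by
  obtain ⟨z, h1, h2⟩ := h
  exact ⟨z, h1.trans (Nat.pow_le_pow_right (by norm_num) hb), h2⟩

theorem neg (h : ZB D β v) : ZB D β (-v) := by
  obtain ⟨z, h1, h2⟩ := h
  refine ⟨-z, by rwa [Int.natAbs_neg], ?_⟩
  push_cast; rw [← h2]; ring

theorem zero : ZB D β 0 := ⟨0, by simp, by simp⟩

theorem add (h : ZB D β v) (h' : ZB D β w) : ZB D (β + 1) (v + w) := by
  obtain ⟨z, h1, h2⟩ := h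
  obtain ⟨z', h1', h2'⟩ := h'
  refine ⟨z + z', ?_, ?_⟩
  · have := Int.natAbs_add_le z z'
    rw [pow_succ]; omega
  · push_cast; rw [← h2, ← h2']; ring

theorem sub (h : ZB D β v) (h' : ZB D β w) : ZB D (β + 1) (v - w) := by
  rw [sub_eq_add_neg]; exact h.add h'.neg

theorem sum {N : ℕ} (F : ℕ → ℝ) (c : ℕ) (hc : c ≤ N) (h : ∀ i < c, ZB D β (F i)) :
    ZB D (β + N) (∑ i ∈ Finset.range c, F i) := by
  have key : ∀ c' ≤ c, ∃ z : ℤ, z.natAbs ≤ c' * 2 ^ β ∧ (∑ i ∈ Finset.range c', F i) * D = z := by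
    intro c'
    induction c' with
    | zero => intro _; exact ⟨0, by simp, by simp⟩
    | succ c' ih =>
      intro hc'
      obtain ⟨z, h1, h2⟩ := ih (by omega)
      obtain ⟨z', h1', h2'⟩ := h c' (by omega)
      refine ⟨z + z', ?_, ?_⟩
      · have := Int.natAbs_add_le z z'
        have e : (c' + 1) * 2 ^ β = c' * 2 ^ β + 2 ^ β := by ring
        omega
      · rw [Finset.sum_range_succ, add_mul, h2, h2']; push_cast; ring
  obtain ⟨z, h1, h2⟩ := key c le_rfl
  refine ⟨z, h1.trans ?_, h2⟩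
  have h3 : c ≤ 2 ^ N := hc.trans Nat.lt_two_pow_self.le
  calc c * 2 ^ β ≤ 2 ^ N * 2 ^ β := Nat.mul_le_mul_right _ h3
    _ = 2 ^ (β + N) := by rw [← pow_add, add_comm]

theorem pow_mul {t s K M : ℕ} (ht : t ≤ K) (hs : s ≤ M) (h : ZB D β v) :
    ZB D (K * M + β) ((t : ℝ) ^ s * v) := by
  obtain ⟨z, h1, h2⟩ := h
  refine ⟨(t : ℤ) ^ s * z, ?_, ?_⟩
  · rw [Int.natAbs_mul, Int.natAbs_pow, Int.natAbs_natCast]
    have h3 : t ^ s ≤ 2 ^ (K * M) := by
      calc t ^ s ≤ (2 ^ K) ^ s := Nat.pow_le_pow_left (ht.trans Nat.lt_two_pow_self.le) s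
        _ ≤ (2 ^ K) ^ M := Nat.pow_le_pow_right (Nat.one_le_two_pow) hs
        _ = _ := by rw [← _root_.pow_mul]
    calc t ^ s * z.natAbs ≤ 2 ^ (K * M) * 2 ^ β := Nat.mul_le_mul h3 h1
      _ = _ := by rw [← pow_add]
  · push_cast; rw [← h2]; ring

theorem qb (h : ZB D β v) (h1 : 1 ≤ D) (h2 : D ≤ 2 ^ β) : QB β v := by
  obtain ⟨z, h3, h4⟩ := h
  exact ⟨D, z, h1, h2, h3, h4⟩

end ZB

/-! ### The bounds -/

/-- the bound for `mx` -/
def Mf (x : ℕ) : ℕ := 2 * ((2 * x) * (2 * x)) + 1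
/-- the bound for `kk` -/
def Kf (x : ℕ) : ℕ := (3 * x) * Mf x
/-- the bound for the simple registers -/
def B1 (x : ℕ) : ℕ := Kf x * Mf x + 2 * x + 2 * x + 1
/-- the bound for the length of the instances -/
def B2 (x : ℕ) : ℕ := (3 * x) * x * (2 * B1 x + 3) + (3 * x) * (2 * B1 x + 3)
/-- the bound for the minors -/
def P1 (x : ℕ) : ℕ := 30 * (B2 x * B2 x)
/-- the bound for the differences -/
def B3 (x : ℕ) : ℕ := (Kf x + 2) * P1 x + Kf x
/-- the final bound -/
def Fb (x : ℕ) : ℕ := (2 * B1 x + 3) + P1 x + (2 * B3 x + 3)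

theorem exists_poly : ∃ p : Polynomial ℕ, ∀ x, p.eval x = Fb x := by
  open Polynomial in
  let M : Polynomial ℕ := 2 * ((2 * X) * (2 * X)) + 1
  let K : Polynomial ℕ := (3 * X) * M
  let b1 : Polynomial ℕ := K * M + 2 * X + 2 * X + 1
  let b2 : Polynomial ℕ := (3 * X) * X * (2 * b1 + 3) + (3 * X) * (2 * b1 + 3)
  let p1 : Polynomial ℕ := 30 * (b2 * b2)
  let b3 : Polynomial ℕ := (K + 2) * p1 + K
  refine ⟨(2 * b1 + 3) + p1 + (2 * b3 + 3), fun x => ?_⟩
  simp only [b3, p1, b2, b1, K, M, Polynomial.eval_add, Polynomial.eval_mul, Polynomial.eval_X,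
    Polynomial.eval_ofNat, Polynomial.eval_one]
  rfl

theorem mx_le {m n x : ℕ} (hm : m ≤ x) (hn : n ≤ x) : mx m n ≤ Mf x := by
  unfold mx ee Mf
  have : (n + m) * (n + m) ≤ (2 * x) * (2 * x) := Nat.mul_le_mul (by omega) (by omega)
  omega

theorem kk_le {m n x : ℕ} (hm : m ≤ x) (hn : n ≤ x) : kk m n ≤ Kf x := by
  unfold kk mm Kf
  exact Nat.mul_le_mul (by omega) (mx_le hm hn)

theorem xp_le (m n a c : ℕ) : xp m n a c ≤ mx m n := by
  unfold xp mx
  omega

theorem len_ge {m n : ℕ} (hm : 1 ≤ m) (hn : 1 ≤ n) (A' : Matrix (Fin m) (Fin n) ℚ) (b' : Fin m → ℚ) :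
    m ≤ inputLength A' b' ∧ n ≤ inputLength A' b' := by
  have hb : ∀ q : ℚ, 1 ≤ bitLength q := by intro q; unfold bitLength; omega
  have h1 : m * n ≤ ∑ i, ∑ j, bitLength (A' i j) := by
    calc m * n = ∑ _i : Fin m, ∑ _j : Fin n, 1 := by simp
      _ ≤ _ := Finset.sum_le_sum fun i _ => Finset.sum_le_sum fun j _ => hb _
  have h2 : m ≤ m * n := Nat.le_mul_of_pos_right m hn
  have h3 : n ≤ m * n := Nat.le_mul_of_pos_left n hm
  unfold inputLength
  constructor <;> omega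

section

variable {m n : ℕ} (σ : List Bool) (A : Fin m → Fin n → ℝ) (b : Fin m → ℝ) (R : Key)
  {D lam x : ℕ}

theorem ue_zb (hD : ∀ r ∈ baseReg, ZB D lam (start A b r)) (c j : ℕ) (hc : c < n + m) (hj : j < n) :
    ZB D lam (ue (ww σ A) c j) := by
  have h1 : ZB D lam 1 := hD [2] (show (2 : ℕ) < 4 by norm_num)
  rw [ue_lt _ _ _ hj]
  unfold uu
  split_ifs with h2 h3 h4
  · rcases Nat.even_or_odd ((⟨j, hj⟩ : Fin n) : ℕ) with h | h
    · rw [h.neg_one_pow]; exact h1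
    · rw [h.neg_one_pow]; exact h1.neg
  · exact ZB.zero
  · have h5 : ZB D lam (A ⟨c - n, h4⟩ ⟨j, hj⟩) := by
      have h6 := hD [0, c - n, j] (show (0 : ℕ) < 4 by norm_num)
      have e : start A b [0, c - n, j] =
        if h : c - n < m ∧ j < n then A ⟨c - n, h.1⟩ ⟨j, h.2⟩ else 0 := rfl
      rw [e, dif_pos ⟨h4, hj⟩] at h6
      exact h6
    unfold ww ss
    split_ifs with h7
    · rw [neg_one_mul]; exact h5.neg
    · rw [one_mul]; exact h5
  · exact absurd (by omega) h4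

theorem s64 (hD : ∀ r ∈ baseReg, ZB D lam (start A b r)) (t a j c : ℕ) (ht : t ≤ kk m n)
    (hc : c ≤ n + m) (hj : j < n) :
    ZB D (kk m n * mx m n + lam + (n + m))
      (∑ c' ∈ Finset.range c, (t : ℝ) ^ xp m n a c' * ue (ww σ A) c' j) := by
  refine ZB.sum _ c hc fun i hi => ?_
  exact ZB.pow_mul ht (xp_le m n a i) (ue_zb σ A b hD i j (by omega) hj)

theorem sAA (hD : ∀ r ∈ baseReg, ZB D lam (start A b r)) (t : ℕ) (ht : t ≤ kk m n)
    (r : Fin (mm m n)) (j : Fin n) :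
    ZB D (kk m n * mx m n + lam + (n + m) + 1) (AA σ A t r j) := by
  unfold AA
  have h1 := s64 σ A b hD t (psr n r) j (n + m) ht le_rfl j.2
  have h2 : rr (ww σ A) (t : ℝ) (psr n r) j =
      ∑ c' ∈ Finset.range (n + m), (t : ℝ) ^ xp m n (psr n r) c' * ue (ww σ A) c' j :=
    rr_eq (ww σ A) t (psr n r) j j.2
  rw [← h2] at h1
  split_ifs
  · rw [neg_one_mul]; exact h1.neg.mono (by omega)
  · rw [one_mul]; exact h1.mono (by omega)

theorem sb (hD : ∀ r ∈ baseReg, ZB D lam (start A b r)) (t i : ℕ) (ht : t ≤ kk m n) :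
    ZB D (kk m n * mx m n + lam)
      ((t : ℝ) ^ (2 * ee m n) * (if h : i < m then b ⟨i, h⟩ else 0)) := by
  refine ZB.pow_mul ht (by unfold mx; omega) ?_
  have h6 := hD [1, i] (show (1 : ℕ) < 4 by norm_num)
  exact h6

theorem spow (hD : ∀ r ∈ baseReg, ZB D lam (start A b r)) (t s : ℕ) (ht : t ≤ kk m n) (hs : s ≤ mx m n) :
    ZB D (kk m n * mx m n + lam) ((t : ℝ) ^ s) := by
  have h1 : ZB D lam 1 := hD [2] (show (2 : ℕ) < 4 by norm_num)
  have h2 := ZB.pow_mul ht hs h1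
  rw [mul_one] at h2
  exact h2

theorem sBB (hD : ∀ r ∈ baseReg, ZB D lam (start A b r)) (t : ℕ) (ht : t ≤ kk m n)
    (r : Fin (mm m n)) :
    ZB D (kk m n * mx m n + lam + (n + m) + 1) (BB n b t r) := by
  unfold BB
  by_cases h1 : (r : ℕ) < n + n
  · rw [if_pos h1]
    exact (spow A b hD t _ ht le_rfl).neg.mono (by omega)
  · rw [if_neg h1]
    exact ((sb A b hD t ((r : ℕ) - (n + n)) ht).sub
      (spow A b hD t (2 * ee m n - 1) ht (by unfold mx; omega))).mono (by omega)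

theorem min_dst (m n : ℕ) (h : List Outcome) (q : ℕ) : ∃ I ∈ minorProg m n h q, I.dst = [11] := by
  refine ⟨⟨Op.sub, [11], [3], [10, m - 1]⟩, ?_, rfl⟩
  unfold minorProg
  simp

theorem size_two_pow {q : ℚ} {P : ℕ} (h : bitLength q ≤ P) : q.num.natAbs ≤ 2 ^ P ∧ q.den ≤ 2 ^ P := by
  unfold bitLength at h
  constructor
  · calc q.num.natAbs ≤ 2 ^ Nat.size q.num.natAbs := (Nat.lt_size_self _).le
      _ ≤ 2 ^ P := Nat.pow_le_pow_right (by norm_num) (by omega)
  · calc q.den ≤ 2 ^ Nat.size q.den := (Nat.lt_size_self _).le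
      _ ≤ 2 ^ P := Nat.pow_le_pow_right (by norm_num) (by omega)

/-- the numbers of the program of a minor -/
theorem smin (hD : ∀ r ∈ baseReg, ZB D lam (start A b r)) (hD1 : 1 ≤ D) (hD2 : D ≤ 2 ^ lam)
    (hlam : lam = 2 * x) (hm : m ≤ x) (hn : n ≤ x) (hn1 : 1 ≤ n) (t : ℕ) (ht : t ≤ kk m n)
    (I : Instr) (hI : I ∈ minorProg (mm m n) n (enc (mm m n) n R) 0) :
    ∃ q : ℚ, (q : ℝ) = vreg (mm m n) n (enc (mm m n) n R) 0 (AA σ A t, BB n b t) I.dst ∧
      bitLength q ≤ P1 x := by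
  set β := kk m n * mx m n + lam + (n + m) + 1 with hβ
  have hβD : D ≤ 2 ^ β := hD2.trans (Nat.pow_le_pow_right (by norm_num) (by omega))
  have hβx : β ≤ B1 x := by
    have : kk m n * mx m n ≤ Kf x * Mf x := Nat.mul_le_mul (kk_le hm hn) (mx_le hm hn)
    unfold B1; omega
  have hA : ∀ r j, ∃ q : ℚ, (q : ℝ) = AA σ A t r j ∧ bitLength q ≤ 2 * B1 x + 3 := by
    intro r j
    obtain ⟨q, h1, h2⟩ := TBITS.part1 _ _ ((sAA σ A b hD t ht r j).qb hD1 hβD)
    exact ⟨q, h1, h2.trans (by omega)⟩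
  have hB : ∀ r, ∃ q : ℚ, (q : ℝ) = BB n b t r ∧ bitLength q ≤ 2 * B1 x + 3 := by
    intro r
    obtain ⟨q, h1, h2⟩ := TBITS.part1 _ _ ((sBB A b hD t ht r).qb hD1 hβD)
    exact ⟨q, h1, h2.trans (by omega)⟩
  choose QA hQA1 hQA2 using hA
  choose QB' hQB1 hQB2 using hB
  obtain ⟨q, h1, h2⟩ := t_SMALL (mm m n) n (enc (mm m n) n R) 0 QA QB' (by unfold mm; omega) I hI
  refine ⟨q, ?_, ?_⟩
  · rw [h1]
    have e1 : (fun i j => ((QA i j : ℚ) : ℝ)) = AA σ A t := by
      funext i j; exact hQA1 i j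
    have e2 : (fun i => ((QB' i : ℚ) : ℝ)) = BB n b t := by
      funext i; exact hQB1 i
    rw [e1, e2]
  · refine h2.trans ?_
    have hlen : inputLength QA QB' ≤ B2 x := by
      unfold inputLength B2
      have hmm : mm m n ≤ 3 * x := by unfold mm; omega
      refine Nat.add_le_add ?_ ?_
      · calc ∑ i, ∑ j, bitLength (QA i j) ≤ ∑ _i : Fin (mm m n), ∑ _j : Fin n, (2 * B1 x + 3) :=
              Finset.sum_le_sum fun i _ => Finset.sum_le_sum fun j _ => hQA2 i j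
          _ = mm m n * n * (2 * B1 x + 3) := by simp; ring
          _ ≤ _ := Nat.mul_le_mul_right _ (Nat.mul_le_mul hmm hn)
      · calc ∑ i, bitLength (QB' i) ≤ ∑ _i : Fin (mm m n), (2 * B1 x + 3) :=
              Finset.sum_le_sum fun i _ => hQB2 i
          _ = mm m n * (2 * B1 x + 3) := by simp
          _ ≤ _ := Nat.mul_le_mul_right _ hmm
    unfold P1
    rw [sq]
    exact Nat.mul_le_mul_left _ (Nat.mul_le_mul hlen hlen)

/-- the differences -/
theorem sdif (hD : ∀ r ∈ baseReg, ZB D lam (start A b r)) (hD1 : 1 ≤ D) (hD2 : D ≤ 2 ^ lam)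
    (hlam : lam = 2 * x) (hm : m ≤ x) (hn : n ≤ x) (hn1 : 1 ≤ n) :
    ∃ D' : ℕ, 1 ≤ D' ∧ D' ≤ 2 ^ ((Kf x + 1) * P1 x) ∧
      ∀ j t : ℕ, j + t ≤ kk m n → ZB D' ((Kf x + 2) * P1 x + j) (df σ A b R j t) := by
  have hF : ∀ t : ℕ, ∃ q : ℚ, t ≤ kk m n → (q : ℝ) = mv σ A b R t ∧ bitLength q ≤ P1 x := by
    intro t
    by_cases ht : t ≤ kk m n
    · obtain ⟨I, hI, hI2⟩ := min_dst (mm m n) n (enc (mm m n) n R) 0
      obtain ⟨q, h1, h2⟩ := smin σ A b R hD hD1 hD2 hlam hm hn hn1 t ht I hI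
      refine ⟨q, fun _ => ⟨?_, h2⟩⟩
      rw [h1, hI2, TEQ.v11]
      rfl
    · exact ⟨0, fun h => absurd h ht⟩
  choose q hq using hF
  have hk : kk m n ≤ Kf x := kk_le hm hn
  set D' : ℕ := ∏ t ∈ Finset.range (kk m n + 1), (q t).den with hD'
  have hD'1 : 1 ≤ D' := Finset.prod_pos fun t _ => (q t).pos
  have hD'2 : D' ≤ 2 ^ ((Kf x + 1) * P1 x) := by
    calc D' ≤ ∏ _t ∈ Finset.range (kk m n + 1), 2 ^ P1 x := by
          refine Finset.prod_le_prod' fun t ht => ?_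
          exact (size_two_pow ((hq t) (by have := Finset.mem_range.1 ht; omega)).2).2
      _ = (2 ^ P1 x) ^ (kk m n + 1) := by simp
      _ = 2 ^ ((kk m n + 1) * P1 x) := by rw [← _root_.pow_mul, mul_comm]
      _ ≤ _ := Nat.pow_le_pow_right (by norm_num) (Nat.mul_le_mul_right _ (by omega))
  refine ⟨D', hD'1, hD'2, ?_⟩
  intro j
  induction j with
  | zero =>
    intro t ht
    have ht' : t ≤ kk m n := by omega
    obtain ⟨h1, h2⟩ := hq t ht'
    have hdvd : (q t).den ∣ D' := Finset.dvd_prod_of_mem _ (Finset.mem_range.2 (by omega))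
    obtain ⟨e, he⟩ := hdvd
    refine ⟨(q t).num * e, ?_, ?_⟩
    · rw [Int.natAbs_mul, Int.natAbs_natCast]
      have h3 : e ≤ D' := by
        rw [he]; exact Nat.le_mul_of_pos_left _ (q t).pos
      calc (q t).num.natAbs * e ≤ 2 ^ P1 x * 2 ^ ((Kf x + 1) * P1 x) :=
            Nat.mul_le_mul (size_two_pow h2).1 (h3.trans hD'2)
        _ = 2 ^ ((Kf x + 2) * P1 x + 0) := by rw [← pow_add]; congr 1; ring
    · show mv σ A b R t * (D' : ℝ) = _
      rw [← h1, he]
      push_cast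
      have h4 : ((q t : ℚ) : ℝ) * ((q t).den : ℝ) = ((q t).num : ℝ) := by
        have := Rat.mul_den_eq_num (q t)
        exact_mod_cast this
      rw [← h4]; ring
  | succ j ih =>
    intro t ht
    have e : df σ A b R (j + 1) t = df σ A b R j (t + 1) - df σ A b R j t := by
      unfold df
      rw [Function.iterate_succ_apply']
      rfl
    rw [e]
    exact (ih (t + 1) (by omega)).sub (ih t (by omega))

end

theorem smt : S_SMT := by
  obtain ⟨p, hp⟩ := exists_poly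
  refine ⟨p, ?_⟩
  intro m n σ A b R hm1 hn1 I hI A' b' hA' hb'
  rw [hp]
  set x := inputLength A' b' with hx
  obtain ⟨hm, hn⟩ := len_ge hm1 hn1 A' b'
  rw [← hx] at hm hn
  obtain ⟨D, hD1, hD2, hD⟩ := t_BITS.2 m n A' b'
  have eA : (fun i j => ((A' i j : ℚ) : ℝ)) = A := by funext i j; exact hA' i j
  have eb : (fun i => ((b' i : ℚ) : ℝ)) = b := by funext i; exact hb' i
  rw [eA, eb] at hD
  have hD : ∀ r ∈ baseReg, ZB D (2 * x) (start A b r) := hD
  have hkx : kk m n ≤ Kf x := kk_le hm hn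
  have hmx : mx m n ≤ Mf x := mx_le hm hn
  have hkm : kk m n * mx m n ≤ Kf x * Mf x := Nat.mul_le_mul hkx hmx
  -- simple registers
  have fin1 : ∀ {β : ℕ} {v : ℝ}, ZB D β v → 2 * x ≤ β → β ≤ B1 x →
      ∃ q : ℚ, (q : ℝ) = v ∧ bitLength q ≤ Fb x := by
    intro β v h h1 h2
    obtain ⟨q, h3, h4⟩ := TBITS.part1 _ _
      (h.qb hD1 (hD2.trans (Nat.pow_le_pow_right (by norm_num) h1)))
    exact ⟨q, h3, h4.trans (by unfold Fb; omega)⟩
  have hB1 : kk m n * mx m n + 2 * x + (n + m) + 1 ≤ B1 x := by unfold B1; omega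
  -- the programs
  unfold prg at hI
  simp only [List.mem_append] at hI
  rcases hI with h | h | h | h
  · -- numbers
    have key : ∀ t ≤ kk m n, ∃ q : ℚ, (q : ℝ) = (t : ℝ) ∧ bitLength q ≤ Fb x := by
      intro t ht
      have h1 := spow A b hD t 1 ht (by unfold mx; omega)
      rw [pow_one] at h1
      exact fin1 h1 (by omega) (by omega)
    unfold numP at h
    rcases List.mem_cons.1 h with h | h
    · rw [h]; exact key 0 (Nat.zero_le _)
    · obtain ⟨t, ht, rfl⟩ := List.mem_map.1 h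
      exact key (t + 1) (List.mem_range.1 ht)
  · unfold uP at h
    obtain ⟨c, hc, h⟩ := List.mem_flatMap.1 h
    obtain ⟨j, hj, rfl⟩ := List.mem_map.1 h
    have hc' := List.mem_range.1 hc
    have hj' := List.mem_range.1 hj
    have e : (uI n σ c j).dst = [62, c, j] := by
      unfold uI
      split_ifs <;> rfl
    rw [e, w62]
    exact fin1 (ue_zb σ A b hD c j hc' hj') le_rfl (by omega)
  · obtain ⟨t, ht, h⟩ := List.mem_flatMap.1 h
    have ht' : t ≤ kk m n := Nat.lt_succ_iff.1 (List.mem_range.1 ht)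
    unfold tP at h
    simp only [List.mem_append] at h
    rcases h with h | h | h | h | h
    · unfold powP at h
      have key : ∀ s ≤ mx m n, ∃ q : ℚ, (q : ℝ) = (t : ℝ) ^ s ∧ bitLength q ≤ Fb x := fun s hs =>
        fin1 (spow A b hD t s ht' hs) (by omega) (by omega)
      rcases List.mem_cons.1 h with h | h
      · rw [h]; exact key 0 (Nat.zero_le _)
      · obtain ⟨s, hs, rfl⟩ := List.mem_map.1 h
        exact key (s + 1) (List.mem_range.1 hs)
    · unfold rP at h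
      obtain ⟨a, ha, h⟩ := List.mem_flatMap.1 h
      obtain ⟨j, hj, h⟩ := List.mem_flatMap.1 h
      have hj' := List.mem_range.1 hj
      rcases List.mem_cons.1 h with h | h
      · rw [h]
        exact fin1 (s64 σ A b hD t a j 0 ht' (Nat.zero_le _) hj') (by omega) (by omega)
      · obtain ⟨c, hc, h⟩ := List.mem_flatMap.1 h
        have hc' := List.mem_range.1 hc
        rcases List.mem_cons.1 h with h | h
        · rw [h]
          exact fin1 (ZB.pow_mul ht' (xp_le m n a c) (ue_zb σ A b hD c j hc' hj')) (by omega) (by omega)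
        · rw [List.mem_singleton.1 h]
          exact fin1 (s64 σ A b hD t a j (c + 1) ht' hc' hj') (by omega) (by omega)
    · unfold aP at h
      obtain ⟨r, hr, h⟩ := List.mem_flatMap.1 h
      obtain ⟨j, hj, rfl⟩ := List.mem_map.1 h
      have hr' := List.mem_range.1 hr
      have hj' := List.mem_range.1 hj
      have e : (aI m n σ t r j).dst = [50, t, 0, r, j] := by
        unfold aI
        split_ifs <;> rfl
      rw [e, w50, TEQ.v0 _ _ _ _ _ hr' hj']
      exact fin1 (sAA σ A b hD t ht' ⟨r, hr'⟩ ⟨j, hj'⟩) (by omega) (by omega)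
    · unfold bP at h
      obtain ⟨r, hr, h⟩ := List.mem_flatMap.1 h
      have hr' := List.mem_range.1 hr
      have key : ∃ q : ℚ, (q : ℝ) = vv σ A b R [50, t, 1, r] ∧ bitLength q ≤ Fb x := by
        rw [w50, TEQ.v1 _ _ _ _ hr']
        exact fin1 (sBB A b hD t ht' ⟨r, hr'⟩) (by omega) (by omega)
      unfold bI at h
      split_ifs at h with h1
      · rw [List.mem_singleton.1 h]; exact key
      · rcases List.mem_cons.1 h with h | h
        · rw [h]
          exact fin1 (sb A b hD t (r - (n + n)) ht') (by omega) (by omega)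
        · rw [List.mem_singleton.1 h]; exact key
    · unfold minP at h
      obtain ⟨I', hI', rfl⟩ := List.mem_map.1 h
      obtain ⟨q, h1, h2⟩ := smin σ A b R hD hD1 hD2 rfl hm hn hn1 t ht' I' hI'
      refine ⟨q, ?_, h2.trans (by unfold Fb; omega)⟩
      rw [h1]
      exact (wpre σ A b R t I'.dst).symm
  · obtain ⟨D', hD'1, hD'2, hdf⟩ := sdif σ A b R hD hD1 hD2 rfl hm hn hn1
    have key : ∀ j t : ℕ, j + t ≤ kk m n → ∃ q : ℚ, (q : ℝ) = vv σ A b R [70, j, t] ∧
        bitLength q ≤ Fb x := by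
      intro j t hjt
      have h1 : (Kf x + 2) * P1 x + j ≤ B3 x := by unfold B3; omega
      have h2 : (Kf x + 1) * P1 x ≤ (Kf x + 2) * P1 x + j :=
        (Nat.mul_le_mul_right _ (by omega)).trans (Nat.le_add_right _ _)
      obtain ⟨q, h3, h4⟩ := TBITS.part1 _ _
        ((hdf j t hjt).qb hD'1 (hD'2.trans (Nat.pow_le_pow_right (by norm_num) h2)))
      exact ⟨q, h3, h4.trans (by unfold Fb; omega)⟩
    unfold difP at h
    rcases List.mem_append.1 h with h | h
    · obtain ⟨t, ht, rfl⟩ := List.mem_map.1 h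
      exact key 0 t (by have := List.mem_range.1 ht; omega)
    · obtain ⟨j, -, h⟩ := List.mem_flatMap.1 h
      obtain ⟨t, -, h⟩ := List.mem_flatMap.1 h
      split_ifs at h with h1
      · rw [List.mem_singleton.1 h]
        exact key (j + 1) t (by omega)
      · exact absurd h (List.not_mem_nil)

end Pool.Agent.L7h47.TN
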